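import Mathlib

/-!
# The sum of cubes of trinomial coefficients: definition and recurrence
-/

open Finset

namespace Pool.Agent.MP_b41085_nt

/-- `S n = ∑_{i+j ≤ n} (n! / (i! j! (n-i-j)!))^3` -/
def S (n : ℕ) : ℕ :=
  ∑ i ∈ range (n + 1), ∑ j ∈ range (n + 1 - i),
    (n.factorial / (i.factorial * j.factorial * (n - i - j).factorial)) ^ 3

/-- Franel numbers (rational valued) -/
def f (n : ℕ) : ℚ := ∑ j ∈ range (n + 1), (n.choose j : ℚ) ^ 3

theorem S_eq (n : ℕ) : (S n : ℚ) = ∑ k ∈ range (n + 1), (n.choose k : ℚ) ^ 3 * f k := by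
  have h1 : (S n : ℚ) = ∑ i ∈ range (n + 1), (n.choose i : ℚ) ^ 3 * f (n - i) := by
    unfold S f
    push_cast
    apply Finset.sum_congr rfl
    intro i hi
    have hi' : i ≤ n := Nat.lt_succ_iff.mp (mem_range.mp hi)
    rw [Finset.mul_sum]
    have e : n + 1 - i = (n - i) + 1 := by omega
    rw [e]
    apply Finset.sum_congr rfl
    intro j hj
    have hj' : j ≤ n - i := Nat.lt_succ_iff.mp (mem_range.mp hj)
    rw [← mul_pow]
    congr 1
    have h2 := Nat.choose_mul_factorial_mul_factorial hi'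
    have h3 := Nat.choose_mul_factorial_mul_factorial hj'
    have h4 : n.factorial / (i.factorial * j.factorial * (n - i - j).factorial) =
        n.choose i * (n - i).choose j := by
      apply Nat.div_eq_of_eq_mul_left (by positivity)
      rw [← h2, ← h3]
      ring
    rw [h4]
    push_cast
    ring
  rw [h1, ← Finset.sum_range_reflect]
  apply Finset.sum_congr rfl
  intro i hi
  have hi' : i ≤ n := Nat.lt_succ_iff.mp (mem_range.mp hi)
  have e1 : n + 1 - 1 - i = n - i := by omega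
  have e2 : n - (n - i) = i := by omega
  rw [e1, e2, Nat.choose_symm hi']

theorem f_eq_of_le {n N : ℕ} (h : n + 1 ≤ N) : f n = ∑ j ∈ range N, (n.choose j : ℚ) ^ 3 := by
  unfold f
  apply Finset.sum_subset (Finset.range_mono h)
  intro j _ hj
  have : n < j := by
    rw [mem_range] at hj; omega
  rw [Nat.choose_eq_zero_of_lt this]
  norm_num

theorem choose_down (m k : ℕ) :
    (m.choose k : ℚ) * ((m : ℚ) + 1) = ((m + 1).choose k : ℚ) * ((m : ℚ) + 1 - k) := by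
  rcases le_or_gt k (m + 1) with h | h
  · have := Nat.choose_mul_succ_eq m k
    have h2 : ((m.choose k * (m + 1) : ℕ) : ℚ) = (((m + 1).choose k * (m + 1 - k) : ℕ) : ℚ) := by
      exact_mod_cast this
    push_cast [Nat.cast_sub h] at h2
    exact h2
  · rw [Nat.choose_eq_zero_of_lt h, Nat.choose_eq_zero_of_lt (by omega : m < k)]
    simp

theorem choose_up (m k : ℕ) :
    (m.choose (k + 1) : ℚ) * ((k : ℚ) + 1) = (m.choose k : ℚ) * ((m : ℚ) - k) := by
  rcases le_or_gt k m with h | h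
  · have := Nat.choose_succ_right_eq m k
    have h2 : ((m.choose (k + 1) * (k + 1) : ℕ) : ℚ) = ((m.choose k * (m - k) : ℕ) : ℚ) := by
      exact_mod_cast this
    push_cast [Nat.cast_sub h] at h2
    exact h2
  · rw [Nat.choose_eq_zero_of_lt h, Nat.choose_eq_zero_of_lt (by omega : m < k + 1)]
    simp

/-- certificate for the Franel recurrence -/
def rho (n j : ℚ) : ℚ :=
  (-14*n^5 - 102*n^4 - 290*n^3 - 402*n^2 - 272*n - 72) +
  (27*n^4 + 147*n^3 + 291*n^2 + 249*n + 78) * j +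
  (-18*n^3 - 66*n^2 - 78*n - 30) * j^2 + (4*n^2 + 8*n + 4) * j^3

theorem franel (n : ℕ) :
    ((n : ℚ) + 2) ^ 2 * f (n + 2) - (7 * (n : ℚ) ^ 2 + 21 * n + 16) * f (n + 1) -
      8 * ((n : ℚ) + 1) ^ 2 * f n = 0 := by
  have hn1 : ((n : ℚ) + 1) ≠ 0 := by positivity
  have hn2 : ((n : ℚ) + 2) ≠ 0 := by positivity
  set g : ℕ → ℚ := fun j => (((n + 2).choose j : ℚ) / (((n : ℚ) + 1) * ((n : ℚ) + 2))) ^ 3 *
    (j : ℚ) ^ 3 * rho n j with hg
  have key : ∀ j : ℕ, ((n : ℚ) + 2) ^ 2 * ((n + 2).choose j : ℚ) ^ 3 -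
      (7 * (n : ℚ) ^ 2 + 21 * n + 16) * ((n + 1).choose j : ℚ) ^ 3 -
      8 * ((n : ℚ) + 1) ^ 2 * (n.choose j : ℚ) ^ 3 = g (j + 1) - g j := by
    intro j
    set c : ℚ := ((n + 2).choose j : ℚ) / (((n : ℚ) + 1) * ((n : ℚ) + 2)) with hc
    have h2 : ((n + 2).choose j : ℚ) = c * (((n : ℚ) + 1) * ((n : ℚ) + 2)) := by
      rw [hc]; field_simp
    have h1 : ((n + 1).choose j : ℚ) = c * (((n : ℚ) + 1) * ((n : ℚ) + 2 - j)) := by
      have := choose_down (n + 1) j
      push_cast at this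
      have h3 : ((n + 1).choose j : ℚ) * ((n : ℚ) + 2) =
          c * (((n : ℚ) + 1) * ((n : ℚ) + 2 - j)) * ((n : ℚ) + 2) := by
        rw [show (n : ℚ) + 2 = (n : ℚ) + 1 + 1 by ring, this, h2]; ring
      exact mul_right_cancel₀ hn2 h3
    have h0 : (n.choose j : ℚ) = c * (((n : ℚ) + 1 - j) * ((n : ℚ) + 2 - j)) := by
      have := choose_down n j
      have h3 : (n.choose j : ℚ) * ((n : ℚ) + 1) =
          c * (((n : ℚ) + 1 - j) * ((n : ℚ) + 2 - j)) * ((n : ℚ) + 1) := by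
        rw [this, h1]; ring
      exact mul_right_cancel₀ hn1 h3
    have hup : (((n + 2).choose (j + 1) : ℚ) / (((n : ℚ) + 1) * ((n : ℚ) + 2))) * ((j : ℚ) + 1) =
        c * ((n : ℚ) + 2 - j) := by
      have := choose_up (n + 2) j
      push_cast at this
      rw [hc, div_mul_eq_mul_div, this]
      ring
    have hgs : g (j + 1) = (c * ((n : ℚ) + 2 - j)) ^ 3 * rho n (j + 1) := by
      rw [hg]
      simp only
      push_cast
      rw [← mul_pow, hup]
    rw [hgs, hg]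
    simp only
    rw [← hc, h2, h1, h0]
    unfold rho
    ring
  have hsum : ∑ j ∈ range (n + 3), (((n : ℚ) + 2) ^ 2 * ((n + 2).choose j : ℚ) ^ 3 -
      (7 * (n : ℚ) ^ 2 + 21 * n + 16) * ((n + 1).choose j : ℚ) ^ 3 -
      8 * ((n : ℚ) + 1) ^ 2 * (n.choose j : ℚ) ^ 3) = 0 := by
    rw [Finset.sum_congr rfl (fun j _ => key j), Finset.sum_range_sub]
    simp [hg]
  rw [Finset.sum_sub_distrib, Finset.sum_sub_distrib, ← Finset.mul_sum, ← Finset.mul_sum,
    ← Finset.mul_sum, ← f_eq_of_le (by omega), ← f_eq_of_le (by omega),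
    ← f_eq_of_le (by omega)] at hsum
  exact hsum

/-- Franel recurrence, with the convention that the last term vanishes for `k = 0`. -/
theorem franel' (k : ℕ) :
    ((k : ℚ) + 1) ^ 2 * f (k + 1) =
      (7 * (k : ℚ) ^ 2 + 7 * k + 2) * f k + 8 * (k : ℚ) ^ 2 * f (k - 1) := by
  rcases k with _ | k
  · norm_num [f, Finset.sum_range_succ]
  · have := franel k
    rw [Nat.add_sub_cancel]
    push_cast
    linear_combination this

/-- the certificate polynomial -/
def gam (n k : ℚ) : ℚ :=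
  (-1911*n^9 - 32872*n^8 - 246470*n^7 - 1056183*n^6 - 2847715*n^5 - 5004722*n^4 - 5727756*n^3
    - 4113591*n^2 - 1681812*n - 298296) +
  (5544*n^8 + 81165*n^7 + 508737*n^6 + 1780817*n^5 + 3802522*n^4 + 5065269*n^3 + 4107023*n^2
    + 1852861*n + 356286) * k +
  (-6111*n^7 - 74193*n^6 - 376660*n^5 - 1034492*n^4 - 1657032*n^3 - 1546180*n^2 - 778313*n
    - 163251) * k^2 +
  (3024*n^6 + 29358*n^5 + 115308*n^4 + 233874*n^3 + 257994*n^2 + 146952*n + 33858) * k^3 +
  (-567*n^5 - 4158*n^4 - 11745*n^3 - 15957*n^2 - 10476*n - 2673) * k^4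

/-- leading coefficient -/
def p3 (n : ℚ) : ℚ := 21*n^6 + 301*n^5 + 1751*n^4 + 5262*n^3 + 8559*n^2 + 7101*n + 2349
/-- coefficient -/
def p2 (n : ℚ) : ℚ := 567*n^6 + 6993*n^5 + 35433*n^4 + 94086*n^3 + 137565*n^2 + 104673*n + 32379
/-- coefficient -/
def p1 (n : ℚ) : ℚ := 567*n^6 + 5859*n^5 + 25479*n^4 + 59730*n^3 + 79569*n^2 + 57027*n + 17145
/-- coefficient -/
def p0 (n : ℚ) : ℚ :=
  15309*n^6 + 127575*n^5 + 429381*n^4 + 747954*n^3 + 713691*n^2 + 355023*n + 72171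

theorem cert_id (n k : ℚ) :
    p3 n * ((n+1)*(n+2)*(n+3))^3 - p2 n * ((n+1)*(n+2)*(n+3-k))^3 +
      p1 n * ((n+1)*(n+3-k)*(n+2-k))^3 - p0 n * ((n+3-k)*(n+2-k)*(n+1-k))^3 =
    (n+3-k)^3 * (k * gam n (k+1) * (7*k^2+7*k+2) + 8*(n+2-k)^3 * gam n (k+2)) -
      k^5 * (k-1) * gam n k := by
  unfold p3 p2 p1 p0 gam
  ring

theorem S_sum_of_le {n N : ℕ} (h : n + 1 ≤ N) :
    (S n : ℚ) = ∑ k ∈ range N, (n.choose k : ℚ) ^ 3 * f k := by
  rw [S_eq]
  apply Finset.sum_subset (Finset.range_mono h)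
  intro j _ hj
  have : n < j := by
    rw [mem_range] at hj; omega
  rw [Nat.choose_eq_zero_of_lt this]
  norm_num

/-- The third-order recurrence for `S`. -/
theorem S_rec (n : ℕ) :
    p3 n * (S (n + 3) : ℚ) = p2 n * (S (n + 2) : ℚ) - p1 n * (S (n + 1) : ℚ) +
      p0 n * (S n : ℚ) := by
  have hn1 : ((n : ℚ) + 1) ≠ 0 := by positivity
  have hn2 : ((n : ℚ) + 2) ≠ 0 := by positivity
  have hn3 : ((n : ℚ) + 3) ≠ 0 := by positivity
  set N : ℚ := ((n : ℚ) + 1) * ((n : ℚ) + 2) * ((n : ℚ) + 3) with hN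
  have hN0 : N ≠ 0 := by positivity
  set g : ℕ → ℚ := fun k => (((n + 3).choose k : ℚ) / N) ^ 3 * (k : ℚ) ^ 3 *
    ((k : ℚ) ^ 2 * ((k : ℚ) - 1) * gam n k * f k +
      8 * ((n : ℚ) + 3 - k) ^ 3 * gam n (k + 1) * f (k - 1)) with hg
  have key : ∀ k : ℕ, p3 n * (((n + 3).choose k : ℚ) ^ 3 * f k) -
      p2 n * (((n + 2).choose k : ℚ) ^ 3 * f k) + p1 n * (((n + 1).choose k : ℚ) ^ 3 * f k) -
      p0 n * ((n.choose k : ℚ) ^ 3 * f k) = g (k + 1) - g k := by
    intro k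
    set c : ℚ := ((n + 3).choose k : ℚ) / N with hc
    have h3 : ((n + 3).choose k : ℚ) = c * (((n : ℚ) + 1) * ((n : ℚ) + 2) * ((n : ℚ) + 3)) := by
      rw [hc, ← hN]; field_simp
    have h2 : ((n + 2).choose k : ℚ) = c * (((n : ℚ) + 1) * ((n : ℚ) + 2) * ((n : ℚ) + 3 - k)) := by
      have := choose_down (n + 2) k
      push_cast at this
      have h : ((n + 2).choose k : ℚ) * ((n : ℚ) + 3) =
          c * (((n : ℚ) + 1) * ((n : ℚ) + 2) * ((n : ℚ) + 3 - k)) * ((n : ℚ) + 3) := by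
        rw [show (n : ℚ) + 3 = (n : ℚ) + 2 + 1 by ring, this, h3]; ring
      exact mul_right_cancel₀ hn3 h
    have h1 : ((n + 1).choose k : ℚ) = c * (((n : ℚ) + 1) * ((n : ℚ) + 3 - k) *
        ((n : ℚ) + 2 - k)) := by
      have := choose_down (n + 1) k
      push_cast at this
      have h : ((n + 1).choose k : ℚ) * ((n : ℚ) + 2) =
          c * (((n : ℚ) + 1) * ((n : ℚ) + 3 - k) * ((n : ℚ) + 2 - k)) * ((n : ℚ) + 2) := by
        rw [show (n : ℚ) + 2 = (n : ℚ) + 1 + 1 by ring, this, h2]; ring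
      exact mul_right_cancel₀ hn2 h
    have h0 : (n.choose k : ℚ) = c * (((n : ℚ) + 3 - k) * ((n : ℚ) + 2 - k) *
        ((n : ℚ) + 1 - k)) := by
      have := choose_down n k
      have h : (n.choose k : ℚ) * ((n : ℚ) + 1) =
          c * (((n : ℚ) + 3 - k) * ((n : ℚ) + 2 - k) * ((n : ℚ) + 1 - k)) * ((n : ℚ) + 1) := by
        rw [this, h1]; ring
      exact mul_right_cancel₀ hn1 h
    have hup : (((n + 3).choose (k + 1) : ℚ) / N) * ((k : ℚ) + 1) = c * ((n : ℚ) + 3 - k) := by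
      have := choose_up (n + 3) k
      push_cast at this
      rw [hc, div_mul_eq_mul_div, this]
      ring
    have hgs : g (k + 1) = (c * ((n : ℚ) + 3 - k)) ^ 3 * (((k : ℚ) + 1) ^ 2 * k *
        gam n (k + 1) * f (k + 1) + 8 * ((n : ℚ) + 2 - k) ^ 3 * gam n (k + 2) * f k) := by
      rw [hg]
      simp only
      push_cast
      rw [← mul_pow, hup, show (k : ℚ) + 1 + 1 = k + 2 by ring,
        show (n : ℚ) + 3 - (k + 1) = n + 2 - k by ring, show (k : ℚ) + 1 - 1 = k by ring]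
    rw [hgs, hg]
    simp only
    rw [← hc, h3, h2, h1, h0]
    have hF := franel' k
    have hC := cert_id n k
    linear_combination (c ^ 3 * f k) * hC - (c ^ 3 * ((n : ℚ) + 3 - k) ^ 3 * k * gam n (k + 1)) * hF
  have hsum : ∑ k ∈ range (n + 4), (p3 n * (((n + 3).choose k : ℚ) ^ 3 * f k) -
      p2 n * (((n + 2).choose k : ℚ) ^ 3 * f k) + p1 n * (((n + 1).choose k : ℚ) ^ 3 * f k) -
      p0 n * ((n.choose k : ℚ) ^ 3 * f k)) = 0 := by
    rw [Finset.sum_congr rfl (fun k _ => key k), Finset.sum_range_sub]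
    simp [hg]
  rw [Finset.sum_sub_distrib, Finset.sum_add_distrib, Finset.sum_sub_distrib, ← Finset.mul_sum,
    ← Finset.mul_sum, ← Finset.mul_sum, ← Finset.mul_sum, ← S_sum_of_le (by omega),
    ← S_sum_of_le (by omega), ← S_sum_of_le (by omega), ← S_sum_of_le (by omega)] at hsum
  linarith

end Pool.Agent.MP_b41085_nt
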