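import Mathlib
import Pool.Agent.MP_b41085_nt.Rec

/-!
# Two-sided bounds for the ratio `S (n+1) / S n`
-/

open Finset Filter Topology

namespace Pool.Agent.MP_b41085_nt

/-- leading coefficient -/
def q3 (x : ℝ) : ℝ := 21*x^6 + 301*x^5 + 1751*x^4 + 5262*x^3 + 8559*x^2 + 7101*x + 2349
/-- coefficient -/
def q2 (x : ℝ) : ℝ := 567*x^6 + 6993*x^5 + 35433*x^4 + 94086*x^3 + 137565*x^2 + 104673*x + 32379
/-- coefficient -/
def q1 (x : ℝ) : ℝ := 567*x^6 + 5859*x^5 + 25479*x^4 + 59730*x^3 + 79569*x^2 + 57027*x + 17145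
/-- coefficient -/
def q0 (x : ℝ) : ℝ :=
  15309*x^6 + 127575*x^5 + 429381*x^4 + 747954*x^3 + 713691*x^2 + 355023*x + 72171

/-- numerator of the lower bound `lam n / n^3` -/
def lam (x : ℝ) : ℝ := 27*x^3 - 54*x^2 + 102*x - 168
/-- numerator of the upper bound `mu n / n^4` -/
def mu (x : ℝ) : ℝ := 27*x^4 - 54*x^3 + 102*x^2 - 168*x + 300

theorem S_rec_real (n : ℕ) :
    q3 n * (S (n + 3) : ℝ) = q2 n * (S (n + 2) : ℝ) - q1 n * (S (n + 1) : ℝ) +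
      q0 n * (S n : ℝ) := by
  have h := S_rec n
  unfold p3 p2 p1 p0 at h
  have h2 := congrArg (Rat.cast : ℚ → ℝ) h
  push_cast at h2
  unfold q3 q2 q1 q0
  linarith

theorem lam_pos_aux {y : ℝ} (hy : 0 ≤ y) :
    0 < lam (y + 10) := by
  have h : lam (y + 10) =
      22452 + 7122 * y ^ 1 + 756 * y ^ 2 + 27 * y ^ 3 := by
    unfold lam
    ring
  rw [h]
  positivity

theorem lam_pos {x : ℝ} (hx : 10 ≤ x) :
    0 < lam x := by
  obtain ⟨y, rfl⟩ : ∃ y, x = y + 10 := ⟨x - 10, by ring⟩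
  exact lam_pos_aux (by linarith)

theorem mu_pos_aux {y : ℝ} (hy : 0 ≤ y) :
    0 < mu (y + 10) := by
  have h : mu (y + 10) =
      224820 + 93672 * y ^ 1 + 14682 * y ^ 2 + 1026 * y ^ 3 + 27 * y ^ 4 := by
    unfold mu
    ring
  rw [h]
  positivity

theorem mu_pos {x : ℝ} (hx : 10 ≤ x) :
    0 < mu x := by
  obtain ⟨y, rfl⟩ : ∃ y, x = y + 10 := ⟨x - 10, by ring⟩
  exact mu_pos_aux (by linarith)

theorem A_pos_aux {y : ℝ} (hy : 0 ≤ y) :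
    0 < q0 (y + 10) * (y + 10) ^ 3 - lam (y + 10) * q1 (y + 10) := by
  have h : q0 (y + 10) * (y + 10) ^ 3 - lam (y + 10) * q1 (y + 10) =
      44904700620 + 20818587906 * y ^ 1 + 4000935348 * y ^ 2 + 407770596 * y ^ 3 + 23232132 * y ^ 4 + 701082 * y ^ 5 + 8748 * y ^ 6 := by
    unfold lam q0 q1
    ring
  rw [h]
  positivity

theorem A_pos {x : ℝ} (hx : 10 ≤ x) :
    0 < q0 x * x ^ 3 - lam x * q1 x := by
  obtain ⟨y, rfl⟩ : ∃ y, x = y + 10 := ⟨x - 10, by ring⟩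
  exact A_pos_aux (by linarith)

theorem Q_pos_aux {y : ℝ} (hy : 0 ≤ y) :
    0 < lam (y + 10) * lam (y + 10 + 1) * (q3 (y + 10) * mu (y + 10 + 2) - (y + 10 + 2) ^ 4 * q2 (y + 10)) - (y + 10 + 2) ^ 4 * (q0 (y + 10) * (y + 10) ^ 3 - lam (y + 10) * q1 (y + 10)) * (y + 10 + 1) ^ 3 := by
  have h : lam (y + 10) * lam (y + 10 + 1) * (q3 (y + 10) * mu (y + 10 + 2) - (y + 10 + 2) ^ 4 * q2 (y + 10)) - (y + 10 + 2) ^ 4 * (q0 (y + 10) * (y + 10) ^ 3 - lam (y + 10) * q1 (y + 10)) * (y + 10 + 1) ^ 3 =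
      2587806701071967376 + 2772154803675545640 * y ^ 1 + 1355506829524886760 * y ^ 2 + 400015329511656816 * y ^ 3 + 79334090536546440 * y ^ 4 + 11137433651857404 * y ^ 5 + 1134510466333680 * y ^ 6 + 84457340046144 * y ^ 7 + 4557988105884 * y ^ 8 + 173799817380 * y ^ 9 + 4440994704 * y ^ 10 + 68206824 * y ^ 11 + 475524 * y ^ 12 := by
    unfold lam mu q0 q1 q2 q3
    ring
  rw [h]
  positivity

theorem Q_pos {x : ℝ} (hx : 10 ≤ x) :
    0 < lam x * lam (x + 1) * (q3 x * mu (x + 2) - (x + 2) ^ 4 * q2 x) - (x + 2) ^ 4 * (q0 x * x ^ 3 - lam x * q1 x) * (x + 1) ^ 3 := by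
  obtain ⟨y, rfl⟩ : ∃ y, x = y + 10 := ⟨x - 10, by ring⟩
  exact Q_pos_aux (by linarith)

theorem B_pos_aux {y : ℝ} (hy : 0 ≤ y) :
    0 < q0 (y + 10) * (y + 10) ^ 4 - mu (y + 10) * q1 (y + 10) := by
  have h : q0 (y + 10) * (y + 10) ^ 4 - mu (y + 10) * q1 (y + 10) =
      6257711700 + 26700557580 * y ^ 1 + 12588280686 * y ^ 2 + 2595274308 * y ^ 3 + 289413216 * y ^ 4 + 18279252 * y ^ 5 + 618462 * y ^ 6 + 8748 * y ^ 7 := by
    unfold mu q0 q1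
    ring
  rw [h]
  positivity

theorem B_pos {x : ℝ} (hx : 10 ≤ x) :
    0 < q0 x * x ^ 4 - mu x * q1 x := by
  obtain ⟨y, rfl⟩ : ∃ y, x = y + 10 := ⟨x - 10, by ring⟩
  exact B_pos_aux (by linarith)

theorem R_pos_aux {y : ℝ} (hy : 0 ≤ y) :
    0 < mu (y + 10) * mu (y + 10 + 1) * ((y + 10 + 2) ^ 3 * q2 (y + 10) - q3 (y + 10) * lam (y + 10 + 2)) + (y + 10 + 2) ^ 3 * (q0 (y + 10) * (y + 10) ^ 4 - mu (y + 10) * q1 (y + 10)) * (y + 10 + 1) ^ 4 := by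
  have h : mu (y + 10) * mu (y + 10 + 1) * ((y + 10 + 2) ^ 3 * q2 (y + 10) - q3 (y + 10) * lam (y + 10 + 2)) + (y + 10 + 2) ^ 3 * (q0 (y + 10) * (y + 10) ^ 4 - mu (y + 10) * q1 (y + 10)) * (y + 10 + 1) ^ 4 =
      105513463349757803520 + 127675737276680626632 * y ^ 1 + 71258261196378295296 * y ^ 2 + 24288425690452093512 * y ^ 3 + 5640900174985482216 * y ^ 4 + 942639898608785124 * y ^ 5 + 116607101592825396 * y ^ 6 + 10811369056483440 * y ^ 7 + 751298432647068 * y ^ 8 + 38647794626352 * y ^ 9 + 1430483128812 * y ^ 10 + 36076246632 * y ^ 11 + 555636060 * y ^ 12 + 3947076 * y ^ 13 := by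
    unfold lam mu q0 q1 q2 q3
    ring
  rw [h]
  positivity

theorem R_pos {x : ℝ} (hx : 10 ≤ x) :
    0 < mu x * mu (x + 1) * ((x + 2) ^ 3 * q2 x - q3 x * lam (x + 2)) + (x + 2) ^ 3 * (q0 x * x ^ 4 - mu x * q1 x) * (x + 1) ^ 4 := by
  obtain ⟨y, rfl⟩ : ∃ y, x = y + 10 := ⟨x - 10, by ring⟩
  exact R_pos_aux (by linarith)

theorem M_pos_aux {y : ℝ} (hy : 0 ≤ y) :
    0 < lam (y + 10 + 1) * (y + 10) ^ 4 - mu (y + 10) * (y + 10 + 1) ^ 3 := by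
  have h : lam (y + 10 + 1) * (y + 10) ^ 4 - mu (y + 10) * (y + 10 + 1) ^ 3 =
      4334580 + 2290908 * y ^ 1 + 480462 * y ^ 2 + 50112 * y ^ 3 + 2604 * y ^ 4 + 54 * y ^ 5 := by
    unfold lam mu
    ring
  rw [h]
  positivity

theorem M_pos {x : ℝ} (hx : 10 ≤ x) :
    0 < lam (x + 1) * x ^ 4 - mu x * (x + 1) ^ 3 := by
  obtain ⟨y, rfl⟩ : ∃ y, x = y + 10 := ⟨x - 10, by ring⟩
  exact M_pos_aux (by linarith)

theorem C_pos_aux {y : ℝ} (hy : 0 ≤ y) :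
    0 < lam (y + 10 + 1) ^ 2 * ((y + 10) ^ 4 * (y + 10 + 2) ^ 4) - mu (y + 10) * mu (y + 10 + 2) * (y + 10 + 1) ^ 6 := by
  have h : lam (y + 10 + 1) ^ 2 * ((y + 10) ^ 4 * (y + 10 + 2) ^ 4) - mu (y + 10) * mu (y + 10 + 2) * (y + 10 + 1) ^ 6 =
      102950032041360 + 154893837115296 * y ^ 1 + 95029981469280 * y ^ 2 + 32933602482048 * y ^ 3 + 7322921005572 * y ^ 4 + 1110069985176 * y ^ 5 + 117901308456 * y ^ 6 + 8814604572 * y ^ 7 + 456044544 * y ^ 8 + 15585696 * y ^ 9 + 317196 * y ^ 10 + 2916 * y ^ 11 := by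
    unfold lam mu
    ring
  rw [h]
  positivity

theorem C_pos {x : ℝ} (hx : 10 ≤ x) :
    0 < lam (x + 1) ^ 2 * (x ^ 4 * (x + 2) ^ 4) - mu x * mu (x + 2) * (x + 1) ^ 6 := by
  obtain ⟨y, rfl⟩ : ∃ y, x = y + 10 := ⟨x - 10, by ring⟩
  exact C_pos_aux (by linarith)

theorem q3_pos {x : ℝ} (hx : 0 ≤ x) : 0 < q3 x := by unfold q3; positivity
theorem q0_pos {x : ℝ} (hx : 0 ≤ x) : 0 < q0 x := by unfold q0; positivity

theorem upper_step {x s0 s1 s2 s3 : ℝ} (hx : 10 ≤ x) (h2 : 0 < s2)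
    (hrec : q3 x * s3 = q2 x * s2 - q1 x * s1 + q0 x * s0)
    (hL0 : lam x * s0 < x ^ 3 * s1) (hL1 : lam (x + 1) * s1 < (x + 1) ^ 3 * s2) :
    (x + 2) ^ 4 * s3 < mu (x + 2) * s2 := by
  have hl0 := lam_pos hx
  have hl1 : 0 < lam (x + 1) := lam_pos (by linarith)
  have hA := A_pos hx
  have hQ := Q_pos hx
  have hq3 := q3_pos (by linarith : 0 ≤ x)
  have hq0 := q0_pos (by linarith : 0 ≤ x)
  have hx2 : 0 < (x + 2) ^ 4 := by positivity
  have key : q3 x * lam x * lam (x + 1) * (mu (x + 2) * s2 - (x + 2) ^ 4 * s3) =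
      (lam x * lam (x + 1) * (q3 x * mu (x + 2) - (x + 2) ^ 4 * q2 x) -
        (x + 2) ^ 4 * (q0 x * x ^ 3 - lam x * q1 x) * (x + 1) ^ 3) * s2 +
      (x + 2) ^ 4 * (lam (x + 1) * q0 x * (x ^ 3 * s1 - lam x * s0) +
        (q0 x * x ^ 3 - lam x * q1 x) * ((x + 1) ^ 3 * s2 - lam (x + 1) * s1)) := by
    linear_combination (-(lam x * lam (x + 1) * (x + 2) ^ 4)) * hrec
  have hpos : 0 < q3 x * lam x * lam (x + 1) * (mu (x + 2) * s2 - (x + 2) ^ 4 * s3) := by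
    rw [key]
    have e1 : 0 < x ^ 3 * s1 - lam x * s0 := by linarith
    have e2 : 0 < (x + 1) ^ 3 * s2 - lam (x + 1) * s1 := by linarith
    positivity
  have h3 : 0 < q3 x * lam x * lam (x + 1) := by positivity
  have := (mul_pos_iff_of_pos_left h3).mp hpos
  linarith

theorem lower_step {x s0 s1 s2 s3 : ℝ} (hx : 10 ≤ x) (h2 : 0 < s2)
    (hrec : q3 x * s3 = q2 x * s2 - q1 x * s1 + q0 x * s0)
    (hU0 : x ^ 4 * s1 < mu x * s0) (hU1 : (x + 1) ^ 4 * s2 < mu (x + 1) * s1) :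
    lam (x + 2) * s2 < (x + 2) ^ 3 * s3 := by
  have hl0 := mu_pos hx
  have hl1 : 0 < mu (x + 1) := mu_pos (by linarith)
  have hB := B_pos hx
  have hR := R_pos hx
  have hq3 := q3_pos (by linarith : 0 ≤ x)
  have hq0 := q0_pos (by linarith : 0 ≤ x)
  have hx2 : 0 < (x + 2) ^ 3 := by positivity
  have key : q3 x * mu x * mu (x + 1) * ((x + 2) ^ 3 * s3 - lam (x + 2) * s2) =
      (mu x * mu (x + 1) * ((x + 2) ^ 3 * q2 x - q3 x * lam (x + 2)) +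
        (x + 2) ^ 3 * (q0 x * x ^ 4 - mu x * q1 x) * (x + 1) ^ 4) * s2 +
      (x + 2) ^ 3 * (mu (x + 1) * q0 x * (mu x * s0 - x ^ 4 * s1) +
        (q0 x * x ^ 4 - mu x * q1 x) * (mu (x + 1) * s1 - (x + 1) ^ 4 * s2)) := by
    linear_combination (mu x * mu (x + 1) * (x + 2) ^ 3) * hrec
  have hpos : 0 < q3 x * mu x * mu (x + 1) * ((x + 2) ^ 3 * s3 - lam (x + 2) * s2) := by
    rw [key]
    have e1 : 0 < mu x * s0 - x ^ 4 * s1 := by linarith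
    have e2 : 0 < mu (x + 1) * s1 - (x + 1) ^ 4 * s2 := by linarith
    positivity
  have h3 : 0 < q3 x * mu x * mu (x + 1) := by positivity
  have := (mul_pos_iff_of_pos_left h3).mp hpos
  linarith

theorem S_pos (n : ℕ) : 0 < S n := by
  have h := S_eq n
  have h2 : (0 : ℚ) < (S n : ℚ) := by
    rw [h]
    apply Finset.sum_pos
    · intro k hk
      have hk' : k ≤ n := Nat.lt_succ_iff.mp (mem_range.mp hk)
      have h1 : (0 : ℚ) < (n.choose k : ℚ) := by exact_mod_cast Nat.choose_pos hk'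
      have h3 : 0 < f k := by
        unfold f
        apply Finset.sum_pos
        · intro j hj
          have hj' : j ≤ k := Nat.lt_succ_iff.mp (mem_range.mp hj)
          have : (0 : ℚ) < (k.choose j : ℚ) := by exact_mod_cast Nat.choose_pos hj'
          positivity
        · exact ⟨0, by simp⟩
      positivity
    · exact ⟨0, by simp⟩
  exact_mod_cast h2

theorem S_vals : S 0 = 1 ∧ S 1 = 3 ∧ S 2 = 27 ∧ S 3 = 381 ∧ S 4 = 6219 ∧ S 5 = 111753 ∧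
    S 6 = 2151549 ∧ S 7 = 43497891 ∧ S 8 = 912018123 ∧ S 9 = 19671397617 ∧
    S 10 = 434005899777 ∧ S 11 = 9754118112951 ∧ S 12 = 222621127928109 := by
  decide +kernel

theorem bounds (n : ℕ) (hn : 10 ≤ n) :
    lam n * (S n : ℝ) < (n : ℝ) ^ 3 * (S (n + 1) : ℝ) ∧
      (n : ℝ) ^ 4 * (S (n + 1) : ℝ) < mu n * (S n : ℝ) := by
  obtain ⟨-, -, -, -, -, -, -, -, -, -, h10, h11, h12⟩ := S_vals
  have key : ∀ m : ℕ, (lam (m + 10 : ℕ) * (S (m + 10) : ℝ) <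
      ((m + 10 : ℕ) : ℝ) ^ 3 * (S (m + 11) : ℝ) ∧
      ((m + 10 : ℕ) : ℝ) ^ 4 * (S (m + 11) : ℝ) < mu (m + 10 : ℕ) * (S (m + 10) : ℝ)) ∧
      (lam (m + 11 : ℕ) * (S (m + 11) : ℝ) < ((m + 11 : ℕ) : ℝ) ^ 3 * (S (m + 12) : ℝ) ∧
      ((m + 11 : ℕ) : ℝ) ^ 4 * (S (m + 12) : ℝ) < mu (m + 11 : ℕ) * (S (m + 11) : ℝ)) := by
    intro m
    induction m with
    | zero =>
      simp only [Nat.zero_add]
      rw [h10, h11, h12]
      unfold lam mu
      norm_num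
    | succ m ih =>
      obtain ⟨⟨a1, a2⟩, ⟨b1, b2⟩⟩ := ih
      have e1 : m + 1 + 10 = m + 11 := by ring
      have e2 : m + 1 + 11 = m + 12 := by ring
      have e3 : m + 1 + 12 = m + 13 := by ring
      rw [e1, e2, e3]
      refine ⟨⟨b1, b2⟩, ?_⟩
      have hrec := S_rec_real (m + 10)
      have hs2 : (0 : ℝ) < (S (m + 12) : ℝ) := by exact_mod_cast S_pos (m + 12)
      have hx : (10 : ℝ) ≤ ((m + 10 : ℕ) : ℝ) := by push_cast; linarith [(Nat.cast_nonneg m : (0:ℝ) ≤ m)]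
      have c1 : ((m + 11 : ℕ) : ℝ) = ((m + 10 : ℕ) : ℝ) + 1 := by push_cast; ring
      have c2 : ((m + 12 : ℕ) : ℝ) = ((m + 10 : ℕ) : ℝ) + 2 := by push_cast; ring
      rw [c1] at b1 b2
      rw [c2]
      exact ⟨lower_step hx hs2 hrec a2 b2, upper_step hx hs2 hrec a1 b1⟩
  obtain ⟨m, rfl⟩ := Nat.exists_eq_add_of_le hn
  have := (key m).1
  rw [show 10 + m = m + 10 by ring]
  exact this

/-- `S` is strictly log-convex -/
theorem logConvex (n : ℕ) : (S (n + 1) : ℝ) / S n < (S (n + 2) : ℝ) / S (n + 1) := by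
  have hs : ∀ k : ℕ, (0 : ℝ) < (S k : ℝ) := fun k => by exact_mod_cast S_pos k
  rcases lt_or_ge n 10 with h | h
  · obtain ⟨h0, h1, h2, h3, h4, h5, h6, h7, h8, h9, h10, h11, h12⟩ := S_vals
    interval_cases n <;>
      simp only [Nat.reduceAdd, h0, h1, h2, h3, h4, h5, h6, h7, h8, h9, h10, h11] <;> norm_num
  · obtain ⟨-, hu⟩ := bounds n h
    obtain ⟨hl, -⟩ := bounds (n + 1) (by omega)
    have hx : (10 : ℝ) ≤ (n : ℝ) := by exact_mod_cast h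
    have hM := M_pos hx
    push_cast at hl
    have hx4 : 0 < (n : ℝ) ^ 4 := by positivity
    have hx3 : 0 < ((n : ℝ) + 1) ^ 3 := by positivity
    calc (S (n + 1) : ℝ) / S n < mu n / (n : ℝ) ^ 4 := by
          rw [div_lt_div_iff₀ (hs n) hx4]; linarith
      _ < lam (n + 1) / ((n : ℝ) + 1) ^ 3 := by
          rw [div_lt_div_iff₀ hx4 hx3]; linarith
      _ < (S (n + 2) : ℝ) / S (n + 1) := by
          rw [div_lt_div_iff₀ hx3 (hs _)]; linarith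

/-- the ratio `S (n+1) / S n` is strictly log-concave -/
theorem ratioLogConcave (n : ℕ) : ((S (n + 1) : ℝ) / S n) * ((S (n + 3) : ℝ) / S (n + 2)) <
    ((S (n + 2) : ℝ) / S (n + 1)) ^ 2 := by
  have hs : ∀ k : ℕ, (0 : ℝ) < (S k : ℝ) := fun k => by exact_mod_cast S_pos k
  rcases lt_or_ge n 10 with h | h
  · obtain ⟨h0, h1, h2, h3, h4, h5, h6, h7, h8, h9, h10, h11, h12⟩ := S_vals
    interval_cases n <;>
      simp only [Nat.reduceAdd, h0, h1, h2, h3, h4, h5, h6, h7, h8, h9, h10, h11, h12] <;> norm_num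
  · obtain ⟨-, hu⟩ := bounds n h
    obtain ⟨hl, -⟩ := bounds (n + 1) (by omega)
    obtain ⟨-, hu2⟩ := bounds (n + 2) (by omega)
    have hx : (10 : ℝ) ≤ (n : ℝ) := by exact_mod_cast h
    have hC := C_pos hx
    have hlp : 0 < lam ((n : ℝ) + 1) := lam_pos (by linarith)
    have hmp : 0 < mu (n : ℝ) := mu_pos hx
    push_cast at hl hu2
    have hx4 : 0 < (n : ℝ) ^ 4 := by positivity
    have hx3 : 0 < ((n : ℝ) + 1) ^ 3 := by positivity
    have hx24 : 0 < ((n : ℝ) + 2) ^ 4 := by positivity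
    have e1 : (S (n + 1) : ℝ) / S n < mu n / (n : ℝ) ^ 4 := by
      rw [div_lt_div_iff₀ (hs n) hx4]; linarith
    have e2 : (S (n + 3) : ℝ) / S (n + 2) < mu (n + 2) / ((n : ℝ) + 2) ^ 4 := by
      rw [div_lt_div_iff₀ (hs _) hx24]; linarith
    have e3 : lam (n + 1) / ((n : ℝ) + 1) ^ 3 < (S (n + 2) : ℝ) / S (n + 1) := by
      rw [div_lt_div_iff₀ hx3 (hs _)]; linarith
    have p1 : 0 < (S (n + 1) : ℝ) / S n := div_pos (hs _) (hs _)
    have p2 : 0 < (S (n + 3) : ℝ) / S (n + 2) := div_pos (hs _) (hs _)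
    have p3 : 0 < lam (n + 1) / ((n : ℝ) + 1) ^ 3 := div_pos hlp hx3
    calc ((S (n + 1) : ℝ) / S n) * ((S (n + 3) : ℝ) / S (n + 2))
        < (mu n / (n : ℝ) ^ 4) * (mu (n + 2) / ((n : ℝ) + 2) ^ 4) :=
          mul_lt_mul'' e1 e2 p1.le p2.le
      _ = mu n * mu (n + 2) / ((n : ℝ) ^ 4 * ((n : ℝ) + 2) ^ 4) := by
          rw [div_mul_div_comm]
      _ < lam (n + 1) ^ 2 / ((n : ℝ) + 1) ^ 6 := by
          rw [div_lt_div_iff₀ (by positivity) (by positivity)]; linarith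
      _ = (lam (n + 1) / ((n : ℝ) + 1) ^ 3) ^ 2 := by
          rw [div_pow, ← pow_mul]
      _ < ((S (n + 2) : ℝ) / S (n + 1)) ^ 2 := by
          exact pow_lt_pow_left₀ e3 p3.le (by norm_num)

theorem tendsto_ratio : Tendsto (fun n : ℕ => (S (n + 1) : ℝ) / S n) atTop (𝓝 27) := by
  have hs : ∀ k : ℕ, (0 : ℝ) < (S k : ℝ) := fun k => by exact_mod_cast S_pos k
  have hinv : Tendsto (fun n : ℕ => ((n : ℝ))⁻¹) atTop (𝓝 0) := tendsto_inv_atTop_nhds_zero_nat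
  have hl : Tendsto (fun n : ℕ => (27 : ℝ) - 54 * (n : ℝ)⁻¹ + 102 * ((n : ℝ)⁻¹) ^ 2 -
      168 * ((n : ℝ)⁻¹) ^ 3) atTop (𝓝 27) := by
    have := ((tendsto_const_nhds (x := (27 : ℝ)) (f := atTop)).sub (hinv.const_mul 54)).add
      ((hinv.pow 2).const_mul 102) |>.sub ((hinv.pow 3).const_mul 168)
    simpa using this
  have hu : Tendsto (fun n : ℕ => (27 : ℝ) - 54 * (n : ℝ)⁻¹ + 102 * ((n : ℝ)⁻¹) ^ 2 -
      168 * ((n : ℝ)⁻¹) ^ 3 + 300 * ((n : ℝ)⁻¹) ^ 4) atTop (𝓝 27) := by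
    have := hl.add ((hinv.pow 4).const_mul 300)
    simpa using this
  apply tendsto_of_tendsto_of_tendsto_of_le_of_le' hl hu
  · filter_upwards [eventually_ge_atTop 10] with n hn
    obtain ⟨h, -⟩ := bounds n hn
    have hn0 : (0 : ℝ) < n := by exact_mod_cast (by omega : 0 < n)
    rw [le_div_iff₀ (hs n)]
    have e : ((27 : ℝ) - 54 * (n : ℝ)⁻¹ + 102 * ((n : ℝ)⁻¹) ^ 2 - 168 * ((n : ℝ)⁻¹) ^ 3) =
        lam n / (n : ℝ) ^ 3 := by
      unfold lam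
      field_simp
    rw [e, div_mul_eq_mul_div, div_le_iff₀ (by positivity)]
    linarith
  · filter_upwards [eventually_ge_atTop 10] with n hn
    obtain ⟨-, h⟩ := bounds n hn
    have hn0 : (0 : ℝ) < n := by exact_mod_cast (by omega : 0 < n)
    rw [div_le_iff₀ (hs n)]
    have e : ((27 : ℝ) - 54 * (n : ℝ)⁻¹ + 102 * ((n : ℝ)⁻¹) ^ 2 - 168 * ((n : ℝ)⁻¹) ^ 3 +
        300 * ((n : ℝ)⁻¹) ^ 4) = mu n / (n : ℝ) ^ 4 := by
      unfold mu
      field_simp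
    rw [e, div_mul_eq_mul_div, le_div_iff₀ (by positivity)]
    linarith

end Pool.Agent.MP_b41085_nt
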